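import Pool.Agent.W315.LB.Stm

/-!
# LB2: connected `r`-graphs without nontrivial tight cuts are bipartite or bicritical
-/

set_option autoImplicit false
set_option linter.unusedSectionVars false

namespace Pool.Agent.W763.LB

open Finset H76FC H76TX H76TY Pool.Agent.W315.LB

theorem core {V : Type} [Fintype V] [DecidableEq V] {r : ℕ} {p : V → V → ℕ}
    (hr : 1 ≤ r) (hG : RGraph r p) (hN : NoTight r p) (hconn : (gr p).Connected)
    (S : Finset V) (hS : 2 ≤ S.card) (C : Finset (Finset V))
    (hdisj : ∀ X ∈ C, ∀ Y ∈ C, X ≠ Y → Disjoint X Y) (hodd : ∀ X ∈ C, Odd X.card)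
    (hCS : ∀ X ∈ C, Disjoint X S) (hout : ∀ X ∈ C, ∀ x ∈ X, ∀ y, 0 < p x y → y ∈ X ∨ y ∈ S)
    (hcard : S.card ≤ C.card) :
    ∃ Z : Finset V, Fintype.card V ≤ 2 * Z.card ∧ ∀ u ∈ Z, ∀ v ∈ Z, p u v = 0 := by
  have hcut : ∀ X ∈ C, cut p X = ∑ x ∈ X, ∑ y ∈ S, p x y := by
    intro X hX
    unfold H76FC.cut
    apply Finset.sum_congr rfl
    intro x hx
    symm
    apply Finset.sum_subset
    · intro y hy
      exact Finset.mem_compl.2 fun h => (Finset.disjoint_left.1 (hCS X hX)) h hy
    · intro y hy hyS
      by_contra hne
      rcases hout X hX x hx y (Nat.pos_of_ne_zero hne) with h | h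
      · exact Finset.mem_compl.1 hy h
      · exact hyS h
  set Z : Finset V := C.biUnion (fun X => X) with hZ
  have hsumZ : ∑ X ∈ C, cut p X = ∑ x ∈ Z, ∑ y ∈ S, p x y := by
    rw [hZ, Finset.sum_biUnion (fun X hX Y hY h => hdisj X hX Y hY h)]
    exact Finset.sum_congr rfl fun X hX => by rw [hcut X hX]
  have hle : ∑ x ∈ Z, ∑ y ∈ S, p x y ≤ ∑ x : V, ∑ y ∈ S, p x y :=
    Finset.sum_le_sum_of_subset (Finset.subset_univ _)
  have htot : ∑ x : V, ∑ y ∈ S, p x y = S.card * r := by
    rw [Finset.sum_comm]
    rw [Finset.sum_congr rfl (fun y _ => ?_)]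
    · rw [Finset.sum_const, smul_eq_mul]
    · rw [← hG.reg y]
      exact Finset.sum_congr rfl fun x _ => hG.symm x y
  have hge : C.card * r ≤ ∑ X ∈ C, cut p X := by
    rw [← smul_eq_mul]
    exact Finset.card_nsmul_le_sum _ _ _ fun X hX => hG.odd X (hodd X hX)
  have hCS' : C.card ≤ S.card := Nat.le_of_mul_le_mul_right (c := r) (by omega) (by omega)
  have hCeq : C.card = S.card := by omega
  have hsumeq : ∑ X ∈ C, cut p X = C.card * r := by
    rw [hCeq] at hge ⊢; omega
  have htight : ∀ X ∈ C, cut p X = r := by
    have h1 : ∑ X ∈ C, r = ∑ X ∈ C, cut p X := by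
      rw [hsumeq, Finset.sum_const, smul_eq_mul]
    have h2 := (Finset.sum_eq_sum_iff_of_le fun X hX => hG.odd X (hodd X hX)).1 h1
    intro X hX
    exact (h2 X hX).symm
  have hone : ∀ X ∈ C, X.card = 1 := by
    intro X hX
    rcases hN X (hodd X hX) (htight X hX) with h | h
    · exact h
    · exfalso
      have h1 : S ⊆ Xᶜ := fun y hy =>
        Finset.mem_compl.2 fun h => (Finset.disjoint_left.1 (hCS X hX)) h hy
      have h2 := Finset.card_le_card h1
      omega
  have hZcard : Z.card = S.card := by
    rw [hZ, Finset.card_biUnion (fun X hX Y hY h => hdisj X hX Y hY h), ← hCeq,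
      Finset.card_eq_sum_ones]
    exact Finset.sum_congr rfl fun X hX => hone X hX
  have hzero : ∀ x, x ∉ Z → ∀ y ∈ S, p x y = 0 := by
    have h1 := Finset.sum_add_sum_compl Z (fun x => ∑ y ∈ S, p x y)
    have h2 : ∑ x ∈ Zᶜ, ∑ y ∈ S, p x y = 0 := by
      rw [hCeq] at hsumeq; omega
    intro x hx y hy
    have h3 := (Finset.sum_eq_zero_iff.1 h2) x (Finset.mem_compl.2 hx)
    exact (Finset.sum_eq_zero_iff.1 h3) y hy
  have hclosed : ∀ x y, x ∈ Z ∪ S → (gr p).Adj x y → y ∈ Z ∪ S := by
    intro x y hx hxy
    have hp : 0 < p x y := by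
      rw [gr, SimpleGraph.fromRel_adj] at hxy
      rcases hxy.2 with h | h
      · exact h
      · rw [hG.symm]; exact h
    rw [Finset.mem_union] at hx ⊢
    rcases hx with hx | hx
    · obtain ⟨X, hX, hxX⟩ := Finset.mem_biUnion.1 hx
      rcases hout X hX x hxX y hp with h | h
      · exact Or.inl (Finset.mem_biUnion.2 ⟨X, hX, h⟩)
      · exact Or.inr h
    · left
      by_contra hy
      have := hzero y hy x hx
      rw [hG.symm] at this
      omega
  have hall : ∀ y, y ∈ Z ∪ S := by
    obtain ⟨s, hs⟩ : S.Nonempty := Finset.card_pos.1 (by omega)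
    intro y
    obtain ⟨w⟩ := hconn.preconnected s y
    have : ∀ (a b : V) (w : (gr p).Walk a b), a ∈ Z ∪ S → b ∈ Z ∪ S := by
      intro a b w
      induction w with
      | nil => exact id
      | cons h _ ih => exact fun ha => ih (hclosed _ _ ha h)
    exact this s y w (Finset.mem_union_right _ hs)
  refine ⟨Z, ?_, ?_⟩
  · have h1 : (Finset.univ : Finset V) ⊆ Z ∪ S := fun y _ => hall y
    have h2 := (Finset.card_le_card h1).trans (Finset.card_union_le Z S)
    rw [Finset.card_univ] at h2
    omega
  · intro x hx y hy
    by_contra hne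
    obtain ⟨X, hX, hxX⟩ := Finset.mem_biUnion.1 hx
    obtain ⟨Y, hY, hyY⟩ := Finset.mem_biUnion.1 hy
    rcases hout X hX x hxX y (Nat.pos_of_ne_zero hne) with h | h
    · obtain ⟨a, ha⟩ := Finset.card_eq_one.1 (hone X hX)
      have h1 : x ∈ ({a} : Finset V) := ha ▸ hxX
      have h2 : y ∈ ({a} : Finset V) := ha ▸ h
      rw [Finset.mem_singleton] at h1 h2
      apply hne
      rw [h1, h2]
      exact hG.loopless a
    · exact Finset.disjoint_left.1 (hCS Y hY) hyY h

theorem bicrit : S_bicrit := by
  intro V _ _ r p hV hr hG hN hconn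
  classical
  by_cases hfirst : ∃ Z : Finset V, Fintype.card V ≤ 2 * Z.card ∧ ∀ u ∈ Z, ∀ v ∈ Z, p u v = 0
  · exact Or.inl hfirst
  right
  intro a b hab
  have hVeven : Even (Fintype.card V) := by
    rw [← Nat.not_odd_iff_even]
    intro h
    have h1 := hG.odd Finset.univ (by rwa [Finset.card_univ])
    rw [H76FC.cut] at h1
    simp at h1
    omega
  let G : SimpleGraph V :=
    { Adj := fun x y => ((x ≠ a ∧ x ≠ b) ∧ (y ≠ a ∧ y ≠ b) ∧ 0 < p x y) ∨ (x = a ∧ y = b) ∨
        (x = b ∧ y = a)
      symm := ⟨fun x y h => by
        rcases h with ⟨h1, h2, h3⟩ | h | h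
        · exact Or.inl ⟨h2, h1, by rw [hG.symm]; exact h3⟩
        · exact Or.inr (Or.inr ⟨h.2, h.1⟩)
        · exact Or.inr (Or.inl ⟨h.2, h.1⟩)⟩
      loopless := ⟨fun x h => by
        rcases h with ⟨h1, h2, h3⟩ | h | h
        · rw [hG.loopless x] at h3; exact lt_irrefl 0 h3
        · exact hab (h.1.symm.trans h.2)
        · exact hab (h.2.symm.trans h.1)⟩ }
  have key : ∀ u : Set V, ¬ G.IsTutteViolator u := by
    intro u hu
    unfold SimpleGraph.IsTutteViolator at hu
    set W : G.Subgraph := (⊤ : G.Subgraph).deleteVerts u with hW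
    have hWv : ∀ v, v ∈ W.verts ↔ v ∉ u := by
      intro v; simp [hW]
    let S : W.coe.ConnectedComponent → Finset V := fun c =>
      univ.filter fun v => ∃ h : v ∈ W.verts, (⟨v, h⟩ : W.verts) ∈ c.supp
    have hScard : ∀ c, (S c).card = c.supp.ncard := by
      intro c
      rw [← Set.ncard_image_of_injective c.supp Subtype.val_injective, ← Set.ncard_coe_finset]
      congr 1
      ext v
      simp [S]
    have hSdisj : ∀ c c' v, v ∈ S c → v ∈ S c' → c = c' := by
      intro c c' v h1 h2
      simp only [S, Finset.mem_filter, Finset.mem_univ, true_and] at h1 h2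
      obtain ⟨h, h3⟩ := h1
      obtain ⟨h', h4⟩ := h2
      rw [SimpleGraph.ConnectedComponent.mem_supp_iff] at h3 h4
      rw [← h3, ← h4]
    let U : Finset V := univ.filter fun v => v ∈ u
    have hUmem : ∀ v, v ∈ U ↔ v ∈ u := by intro v; simp [U]
    have hUcard : U.card = u.ncard := by
      rw [← Set.ncard_coe_finset]
      congr 1
      ext v; simp [U]
    -- closure of components under adjacency outside of `u`
    have hclos : ∀ c x y, x ∈ S c → G.Adj x y → y ∈ S c ∨ y ∈ u := by
      intro c x y hx hadj
      by_cases hyu : y ∈ u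
      · exact Or.inr hyu
      left
      have hyW : y ∈ W.verts := (hWv y).2 hyu
      simp only [S, Finset.mem_filter, Finset.mem_univ, true_and] at hx
      obtain ⟨hxW, hx2⟩ := hx
      simp only [S, Finset.mem_filter, Finset.mem_univ, true_and]
      refine ⟨hyW, ?_⟩
      rw [SimpleGraph.ConnectedComponent.mem_supp_iff] at hx2 ⊢
      rw [← hx2]
      symm
      apply SimpleGraph.ConnectedComponent.sound
      apply SimpleGraph.Adj.reachable
      have hxu : x ∉ u := (hWv x).1 hxW
      simp only [SimpleGraph.Subgraph.coe_adj, hW, SimpleGraph.Subgraph.deleteVerts_adj,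
        SimpleGraph.Subgraph.verts_top, SimpleGraph.Subgraph.top_adj, Set.mem_univ]
      tauto
    have hSu : ∀ c x, x ∈ S c → x ∉ u := by
      intro c x hx
      simp only [S, Finset.mem_filter, Finset.mem_univ, true_and] at hx
      obtain ⟨hxW, _⟩ := hx
      exact (hWv x).1 hxW
    let C0 : Finset W.coe.ConnectedComponent := univ.filter fun c => Odd c.supp.ncard
    have hCcard : C0.card = W.coe.oddComponents.ncard := by
      rw [← Set.ncard_coe_finset]
      congr 1
      ext c; simp [C0]
    -- parity
    have hpar : C0.card % 2 = U.card % 2 := by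
      have h1 := SimpleGraph.odd_ncard_oddComponents W.coe
      rw [← hCcard] at h1
      have h2 : Nat.card W.verts = Fintype.card V - U.card := by
        have h3 : W.verts = ((Uᶜ : Finset V) : Set V) := by
          ext v
          rw [hWv, Finset.mem_coe, Finset.mem_compl, hUmem]
        rw [Nat.card_coe_set_eq, h3, Set.ncard_coe_finset, Finset.card_compl]
      have h4 : U.card ≤ Fintype.card V := Finset.card_le_univ U
      rw [h2, Nat.odd_iff, Nat.odd_iff] at h1
      rw [Nat.even_iff] at hVeven
      omega
    have hC0 : U.card + 2 ≤ C0.card := by omega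
    -- reach of a component
    have hcomp : ∀ c x, x ∈ S c → ∀ z ∈ S c, ∀ T : Finset V, x ∈ T →
        (∀ s ∈ T, ∀ t, G.Adj s t → t ∈ T ∨ t ∈ u) → z ∈ T := by
      intro c x hx z hz T hxT hT
      simp only [S, Finset.mem_filter, Finset.mem_univ, true_and] at hx hz
      obtain ⟨hxW, hx2⟩ := hx
      obtain ⟨hzW, hz2⟩ := hz
      rw [SimpleGraph.ConnectedComponent.mem_supp_iff] at hx2 hz2
      have hreach := SimpleGraph.ConnectedComponent.exact (hx2.trans hz2.symm)
      obtain ⟨w⟩ := hreach
      have : ∀ (s t : W.verts) (w : W.coe.Walk s t), s.1 ∈ T → t.1 ∈ T := by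
        intro s t w
        induction w with
        | nil => exact id
        | @cons s s' t h _ ih =>
          intro hs
          apply ih
          have hadj : G.Adj s.1 s'.1 := W.adj_sub h
          rcases hT s.1 hs s'.1 hadj with h1 | h1
          · exact h1
          · exact absurd h1 ((hWv _).1 s'.2)
      exact this _ _ w hxT
    let C1 : Finset W.coe.ConnectedComponent := C0.filter fun c => a ∉ S c ∧ b ∉ S c
    let S' : Finset V := insert a (insert b U)
    have hcount : S'.card ≤ C1.card := by
      have hbad : ∀ c ∈ C0, c ∉ C1 → a ∈ S c ∨ b ∈ S c := by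
        intro c hc hc1
        by_contra hcon
        push Not at hcon
        exact hc1 (Finset.mem_filter.2 ⟨hc, hcon⟩)
      by_cases ha : a ∈ U <;> by_cases hb : b ∈ U
      · -- both in T
        have h1 : S' = U := by
          simp only [S']
          rw [Finset.insert_eq_of_mem hb, Finset.insert_eq_of_mem ha]
        have h2 : C1 = C0 := by
          apply Finset.filter_true_of_mem
          intro c _
          exact ⟨fun h => hSu c a h ((hUmem a).1 ha), fun h => hSu c b h ((hUmem b).1 hb)⟩
        rw [h1, h2]; omega
      · have h1 : S'.card ≤ U.card + 1 := by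
          simp only [S']
          have hins : insert a (insert b U) = insert b U :=
            Finset.insert_eq_of_mem (Finset.mem_insert_of_mem ha)
          rw [hins]
          exact Finset.card_insert_le _ _
        have h2 : (C0 \ C1).card ≤ 1 := by
          rw [Finset.card_le_one]
          intro c hc c' hc'
          rw [Finset.mem_sdiff] at hc hc'
          have h3 : b ∈ S c := (hbad c hc.1 hc.2).resolve_left
            fun h => hSu c a h ((hUmem a).1 ha)
          have h4 : b ∈ S c' := (hbad c' hc'.1 hc'.2).resolve_left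
            fun h => hSu c' a h ((hUmem a).1 ha)
          exact hSdisj c c' b h3 h4
        have h3 := Finset.card_sdiff_add_card_inter C0 C1
        have h4 : (C0 ∩ C1).card ≤ C1.card := Finset.card_le_card Finset.inter_subset_right
        omega
      · have h1 : S'.card ≤ U.card + 1 := by
          simp only [S']
          rw [Finset.insert_eq_of_mem hb]
          exact Finset.card_insert_le _ _
        have h2 : (C0 \ C1).card ≤ 1 := by
          rw [Finset.card_le_one]
          intro c hc c' hc'
          rw [Finset.mem_sdiff] at hc hc'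
          have h3 : a ∈ S c := (hbad c hc.1 hc.2).resolve_right
            fun h => hSu c b h ((hUmem b).1 hb)
          have h4 : a ∈ S c' := (hbad c' hc'.1 hc'.2).resolve_right
            fun h => hSu c' b h ((hUmem b).1 hb)
          exact hSdisj c c' a h3 h4
        have h3 := Finset.card_sdiff_add_card_inter C0 C1
        have h4 : (C0 ∩ C1).card ≤ C1.card := Finset.card_le_card Finset.inter_subset_right
        omega
      · -- neither in T
        have h1 : S'.card ≤ U.card + 2 := by
          simp only [S']
          have h5 := Finset.card_insert_le a (insert b U)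
          have h6 := Finset.card_insert_le b U
          omega
        have h2 : C1 = C0 := by
          apply Finset.filter_true_of_mem
          intro c hc
          by_contra hcon
          have hcon' : a ∈ S c ∨ b ∈ S c := by tauto
          have hau : a ∉ u := fun h => ha ((hUmem a).2 h)
          have hbu : b ∉ u := fun h => hb ((hUmem b).2 h)
          have hadj : G.Adj a b := Or.inr (Or.inl ⟨rfl, rfl⟩)
          have hab2 : a ∈ S c ∧ b ∈ S c := by
            rcases hcon' with h | h
            · exact ⟨h, (hclos c a b h hadj).resolve_right hbu⟩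
            · exact ⟨(hclos c b a h hadj.symm).resolve_right hau, h⟩
          have hSc : S c = {a, b} := by
            ext z
            constructor
            · intro hz
              apply hcomp c a hab2.1 z hz {a, b} (by simp)
              intro s hs t hst
              left
              simp only [Finset.mem_insert, Finset.mem_singleton] at hs ⊢
              rcases hst with ⟨h3, -, -⟩ | h3 | h3
              · rcases hs with h | h
                · exact absurd h h3.1
                · exact absurd h h3.2
              · exact Or.inr h3.2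
              · exact Or.inl h3.2
            · intro hz
              simp only [Finset.mem_insert, Finset.mem_singleton] at hz
              rcases hz with h | h
              · rw [h]; exact hab2.1
              · rw [h]; exact hab2.2
          have hodd : Odd (S c).card := by
            rw [hScard]; exact (Finset.mem_filter.1 hc).2
          rw [hSc, Finset.card_pair hab] at hodd
          exact absurd hodd (by decide)
        rw [h2]; omega
    apply hfirst
    have hinj : Set.InjOn S (C1 : Set W.coe.ConnectedComponent) := by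
      intro c hc c' hc' h
      have hodd : Odd (S c).card := by
        rw [hScard]; exact (Finset.mem_filter.1 (Finset.mem_filter.1 hc).1).2
      obtain ⟨v, hv⟩ : (S c).Nonempty := Finset.card_pos.1 hodd.pos
      exact hSdisj c c' v hv (h ▸ hv)
    refine core hr hG hN hconn S' ?_ (C1.image S) ?_ ?_ ?_ ?_ ?_
    · have h1 : ({a, b} : Finset V) ⊆ S' := by
        intro z hz
        simp only [Finset.mem_insert, Finset.mem_singleton] at hz
        simp only [S', Finset.mem_insert]
        tauto
      have h2 := Finset.card_le_card h1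
      rw [Finset.card_pair hab] at h2
      exact h2
    · intro X hX Y hY hne
      obtain ⟨c, hc, rfl⟩ := Finset.mem_image.1 hX
      obtain ⟨c', hc', rfl⟩ := Finset.mem_image.1 hY
      rw [Finset.disjoint_left]
      intro v h3 h4
      exact hne (by rw [hSdisj c c' v h3 h4])
    · intro X hX
      obtain ⟨c, hc, rfl⟩ := Finset.mem_image.1 hX
      rw [hScard]; exact (Finset.mem_filter.1 (Finset.mem_filter.1 hc).1).2
    · intro X hX
      obtain ⟨c, hc, rfl⟩ := Finset.mem_image.1 hX
      have hc2 := (Finset.mem_filter.1 hc).2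
      rw [Finset.disjoint_left]
      intro v h3 h4
      simp only [S', Finset.mem_insert] at h4
      rcases h4 with h | h | h
      · exact hc2.1 (h ▸ h3)
      · exact hc2.2 (h ▸ h3)
      · exact hSu c v h3 ((hUmem v).1 h)
    · intro X hX x hx y hxy
      obtain ⟨c, hc, rfl⟩ := Finset.mem_image.1 hX
      have hc2 := (Finset.mem_filter.1 hc).2
      simp only [S', Finset.mem_insert]
      by_cases hya : y = a
      · exact Or.inr (Or.inl hya)
      by_cases hyb : y = b
      · exact Or.inr (Or.inr (Or.inl hyb))
      have hxa : x ≠ a := fun h => hc2.1 (h ▸ hx)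
      have hxb : x ≠ b := fun h => hc2.2 (h ▸ hx)
      have hadj : G.Adj x y := Or.inl ⟨⟨hxa, hxb⟩, ⟨hya, hyb⟩, hxy⟩
      rcases hclos c x y hx hadj with h | h
      · exact Or.inl h
      · exact Or.inr (Or.inr (Or.inr ((hUmem y).2 h)))
    · rw [Finset.card_image_of_injOn hinj]
      exact hcount
  obtain ⟨M, hM⟩ := SimpleGraph.tutte.2 key
  rw [SimpleGraph.Subgraph.isPerfectMatching_iff] at hM
  choose f hf1 hf2 using hM
  refine ⟨f, fun v => ?_, ?_, fun x hxa hxb => ?_⟩
  · exact (hf2 (f v) v (hf1 v).symm).symm
  · rcases M.adj_sub (hf1 a) with ⟨h, -, -⟩ | h | h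
    · exact absurd rfl h.1
    · exact h.2
    · exact absurd h.1 hab
  · rcases M.adj_sub (hf1 x) with ⟨-, -, h⟩ | h | h
    · exact h
    · exact absurd h.1 hxa
    · exact absurd h.1 hxb

end Pool.Agent.W763.LB
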